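import Pool.Agent.Run7.h77.RO.Defs

/-! # Piece MULT of the project RO (helper67) -/

set_option autoImplicit false

namespace Run7.h67.RO

open Run7.h77.RO

variable {p B w v m D : ℕ} {H : SimpleGraph (Fin w)}

/-- the streams -/
def stm : V p B w v → Fin 3 ⊕ (Fin p ⊕ Fin p)
  | .inl x => .inl x.1
  | .inr (.inl x) => .inr (.inl x.1)
  | .inr (.inr (.inl x)) => .inr (.inr x.1)
  | .inr (.inr (.inr (.inl _))) => .inl 0
  | .inr (.inr (.inr (.inr (.inl _)))) => .inl 1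
  | .inr (.inr (.inr (.inr (.inr (.inl _))))) => .inl 0
  | .inr (.inr (.inr (.inr (.inr (.inr (.inl _)))))) => .inl 1
  | .inr (.inr (.inr (.inr (.inr (.inr (.inr _)))))) => .inl 2

/-- the formula of the degree -/
def Q (m D : ℕ) : V p B w v → ℕ → Prop
  | .inl x, d => ((x.1 : ℕ) = 0 ∧ d = (x.2 : ℕ) + 1 + (2 * p + 2) * D) ∨
      ((x.1 : ℕ) = 1 ∧ d = (x.2 : ℕ) + 1 + (w * v - 2 * w) + (2 * p + 2) * D) ∨
      ((x.1 : ℕ) = 2 ∧ d = (x.2 : ℕ) + 1 + (2 * w * v - w) + (2 * p + 2) * D)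
  | .inr (.inl x), d => d = (x.2 : ℕ) + 1 +
      (if (x.2 : ℕ) < 2 * B * w then (2 * p + 1) * D else (2 * p + 3) * w)
  | .inr (.inr (.inl x)), d => d = (2 * B * w + w - (x.2 : ℕ)) +
      (if w ≤ (x.2 : ℕ) then (2 * p + 1) * D else (2 * p + 3) * w)
  | .inr (.inr (.inr (.inl j))), d => d = (2 * B * w - (j : ℕ)) + (2 * p + 3) * w
  | .inr (.inr (.inr (.inr (.inl j)))), d =>
      d + 4 * w * m + (w - 1 - (j : ℕ)) + (2 * w - (j : ℕ)) =
      2 * B * w + ((j : ℕ) + 1 - 2 * w) + 2 * w * v +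
        (if w * v ≤ (j : ℕ) + (2 * p + 3) * w then (p + 1) * w else 0)
  | .inr (.inr (.inr (.inr (.inr (.inl l))))), d => d + w * m + (2 * w - (l : ℕ)) =
      2 * B * w + ((l : ℕ) + 1 - 2 * w) + w * v +
        (if 2 * w * v ≤ (l : ℕ) + (2 * p + 3) * w then p * w else 0)
  | .inr (.inr (.inr (.inr (.inr (.inr (.inl r)))))), d => d = (r : ℕ) + 1
  | .inr (.inr (.inr (.inr (.inr (.inr (.inr r)))))), d => d = (r : ℕ) + 1

theorem Q_of (hDR0 : S_DR0) (hDR1 : S_DR1) (hDR2 : S_DR2) (hDA : S_DA) (hDB : S_DB)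
    (hDU0 : S_DU0) (hDU1 : S_DU1) (hDU2 : S_DU2) (hDL : S_DL) (hP : Par p B w v m D H)
    (x : V p B w v) : Q m D x (dg B w v H (kd x) (ps x)) := by
  rcases x with ⟨i, x⟩ | ⟨i, x⟩ | ⟨i, x⟩ | x | x | x | x | x
  · fin_cases i
    · exact Or.inl ⟨rfl, hDR0 p B w v m D H hP x x.2⟩
    · exact Or.inr (Or.inl ⟨rfl, hDR1 p B w v m D H hP x x.2⟩)
    · exact Or.inr (Or.inr ⟨rfl, hDR2 p B w v m D H hP x x.2⟩)
  · exact hDA p B w v m D H hP i x x.2
  · exact hDB p B w v m D H hP i x x.2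
  · exact hDU0 p B w v m D H hP x x.2
  · exact hDU1 p B w v m D H hP x x.2
  · exact hDU2 p B w v m D H hP x x.2
  · exact (hDL p B w v m D H hP).1 x x.2
  · exact (hDL p B w v m D H hP).2 x x.2

/-- the linear facts on the parameters -/
theorem facts (hP : Par p B w v m D H) :
    2 * w * v = 2 * (w * v) ∧ 4 * w * m = 4 * (w * m) ∧ (2 * p + 3) * w = 2 * (p * w) + 3 * w ∧
    (p + 1) * w = p * w + w ∧ (2 * p + 2) * D = 2 * (p * D) + 2 * D ∧
    (2 * p + 1) * D = 2 * (p * D) + D ∧ 4 * (w * m) + 2 * (p * w) + 4 * w ≤ w * v ∧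
    2 * (p * D) ≤ p * w ∧ w ≤ w * m ∧ w ≤ 2 * B * w := by
  obtain ⟨hw, hm, hB, hv, hD, -⟩ := hP
  refine ⟨by ring, by ring, by ring, by ring, by ring, by ring, ?_, ?_, ?_, ?_⟩
  · have := Nat.mul_le_mul_left w hv
    calc 4 * (w * m) + 2 * (p * w) + 4 * w = w * (4 * m + 2 * p + 4) := by ring
      _ ≤ w * v := this
  · have := Nat.mul_le_mul_left p hD
    calc 2 * (p * D) = p * (2 * D) := by ring
      _ ≤ p * w := this
  · exact Nat.le_mul_of_pos_right w (by omega)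
  · have hB0 : 0 < 2 * B := by
      rw [hB]
      have : 0 < v := by omega
      positivity
    exact Nat.le_mul_of_pos_left w hB0

theorem pos (hP : Par p B w v m D H) {x : V p B w v} {d : ℕ} (hx : Q m D x d) : 1 ≤ d := by
  obtain ⟨e1, e2, e3, e4, e5, e6, f1, f2, f4, f5⟩ := facts hP
  have hw := hP.hw
  have hD := hP.hD
  rcases x with ⟨i, x⟩ | ⟨i, x⟩ | ⟨i, x⟩ | x | x | x | x | x <;> simp only [Q] at hx <;>
    have hx2 := x.2
  · omega
  · omega
  · omega
  · omega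
  · split_ifs at hx <;> omega
  · split_ifs at hx <;> omega
  · omega
  · omega

theorem inj (hP : Par p B w v m D H) {x y : V p B w v} {d : ℕ} (hs : stm x = stm y)
    (hx : Q m D x d) (hy : Q m D y d) : x = y := by
  obtain ⟨e1, e2, e3, e4, e5, e6, f1, f2, f4, f5⟩ := facts hP
  have hw := hP.hw
  have hD := hP.hD
  rcases x with ⟨i, x⟩ | ⟨i, x⟩ | ⟨i, x⟩ | x | x | x | x | x <;>
    rcases y with ⟨i', y⟩ | ⟨i', y⟩ | ⟨i', y⟩ | y | y | y | y | y <;>
    simp only [stm, Sum.inl.injEq, Sum.inr.injEq, reduceCtorEq] at hs <;>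
    (try (exfalso; revert hs; decide)) <;>
    simp only [Q] at hx hy <;>
    have hx2 := x.2 <;> have hy2 := y.2 <;> (try (have hs' := congrArg Fin.val hs)) <;>
    (try simp only [Fin.val_zero, Fin.val_one, Fin.val_two, Fin.isValue] at hs') <;>
    (try split_ifs at hx) <;> (try split_ifs at hy)
  all_goals first
    | (exfalso; omega)
    | (have h : (x : ℕ) = y := by omega
       have h2 := Fin.ext h
       subst h2
       first | rfl | (subst hs; rfl))

theorem t_MULT : S_SUM → S_DR0 → S_DR1 → S_DR2 → S_DA → S_DB → S_DU0 → S_DU1 → S_DU2 → S_DL →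
    S_MULT := by
  intro hSUM hDR0 hDR1 hDR2 hDA hDB hDU0 hDU1 hDU2 hDL p B w v m D H hP
  have hQ : ∀ x : V p B w v, Q m D x (((G p B w v H).neighborSet x).ncard) := fun x => by
    rw [hSUM p B w v H x]
    exact Q_of hDR0 hDR1 hDR2 hDA hDB hDU0 hDU1 hDU2 hDL hP x
  refine ⟨fun x => pos hP (hQ x), fun d => ?_⟩
  have h1 : {x : V p B w v | ((G p B w v H).neighborSet x).ncard = d}.ncard ≤
      (Set.univ : Set (Fin 3 ⊕ (Fin p ⊕ Fin p))).ncard := by
    refine Set.ncard_le_ncard_of_injOn stm (fun _ _ => Set.mem_univ _) ?_ Set.finite_univ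
    intro x hx y hy hs
    have hx1 := hQ x
    have hy1 := hQ y
    rw [show ((G p B w v H).neighborSet x).ncard = d from hx] at hx1
    rw [show ((G p B w v H).neighborSet y).ncard = d from hy] at hy1
    exact inj hP hs hx1 hy1
  refine h1.trans (le_of_eq ?_)
  rw [Set.ncard_univ, Nat.card_eq_fintype_card]
  simp only [Fintype.card_sum, Fintype.card_fin]
  ring

end Run7.h67.RO
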