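import Pool.Agent.Run7.h77.RO.Defs

/-! # Piece TRI of the project RO (helper67) -/

set_option autoImplicit false

namespace Run7.h67.RO

open Run7.h77.RO

variable {p B w v : ℕ} {H : SimpleGraph (Fin w)}

theorem A2_symm {k k' : Kd p} {x y : ℕ} (h : A2 B w v H k x k' y) : A2 B w v H k' y k x :=
  Or.symm h

theorem Hn_symm {x y : ℕ} (h : Hn H x y) : Hn H y x := by
  obtain ⟨hx, hy, h⟩ := h
  exact ⟨hy, hx, h.symm⟩

theorem Hn_tri (hH : H.CliqueFree 3) {x y z : ℕ} (h1 : Hn H x y) (h2 : Hn H x z)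
    (h3 : Hn H y z) : False := by
  obtain ⟨hx, hy, h1⟩ := h1
  obtain ⟨hx', hz, h2⟩ := h2
  obtain ⟨hy', hz', h3⟩ := h3
  exact hH {⟨x, hx⟩, ⟨y, hy⟩, ⟨z, hz⟩} (SimpleGraph.is3Clique_triple_iff.2 ⟨h1, h2, h3⟩)

theorem nb_u0 {j : ℕ} {k : Kd p} {y : ℕ} (h : A2 B w v H .u0 j k y) :
    k = .r 0 ∨ k = .u1 := by
  cases k <;> simp_all [A2, E]

theorem nb_u1 {j : ℕ} {k : Kd p} {y : ℕ} (h : A2 B w v H .u1 j k y) :
    k = .r 1 ∨ k = .u0 ∨ k = .u2 ∨ k = .l1 ∨ ∃ i, k = .a i ∧ 2 * B * w ≤ y := by
  cases k <;> simp_all [A2, E]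

theorem nb_u2 {j : ℕ} {k : Kd p} {y : ℕ} (h : A2 B w v H .u2 j k y) :
    k = .r 2 ∨ k = .u1 ∨ k = .l2 ∨ ∃ i, k = .b i ∧ y < w := by
  cases k <;> simp_all [A2, E]

theorem nb_l1 {j : ℕ} {k : Kd p} {y : ℕ} (h : A2 B w v H .l1 j k y) : k = .u1 := by
  cases k <;> simp_all [A2, E]

theorem nb_l2 {j : ℕ} {k : Kd p} {y : ℕ} (h : A2 B w v H .l2 j k y) : k = .u2 := by
  cases k <;> simp_all [A2, E]

/-- the core kinds -/
def core : Kd p → Prop
  | .r _ => True
  | .a _ => True
  | .b _ => True
  | _ => False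

theorem rest_tri (hw : 0 < w) {k1 k2 k3 : Kd p} {x1 x2 x3 : ℕ} (hc : ¬ core k1)
    (s2 : x2 < sz B w v k2) (s3 : x3 < sz B w v k3)
    (h12 : A2 B w v H k1 x1 k2 x2) (h13 : A2 B w v H k1 x1 k3 x3)
    (h23 : A2 B w v H k2 x2 k3 x3) : False := by
  have hbig : ∀ x, 2 * B * w ≤ x → 2 * B ≤ x / w := fun x hx =>
    (Nat.le_div_iff_mul_le hw).2 hx
  have hsm : ∀ x, x < 2 * B * w → x / w < 2 * B := fun x hx =>
    (Nat.div_lt_iff_lt_mul hw).2 hx
  have hlow : ∀ x, x < w → x / w = 0 := fun x hx => Nat.div_eq_of_lt hx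
  cases k1 with
  | r i => exact hc trivial
  | a i => exact hc trivial
  | b i => exact hc trivial
  | u0 =>
    rcases nb_u0 h12 with rfl | rfl <;> rcases nb_u0 h13 with rfl | rfl <;>
      simp [A2, E] at h23
  | u1 =>
    rcases nb_u1 h12 with rfl | rfl | rfl | rfl | ⟨i, rfl, hi⟩ <;>
      rcases nb_u1 h13 with rfl | rfl | rfl | rfl | ⟨i', rfl, hi'⟩ <;>
      simp [A2, E, sz] at h23 s2 s3
    · have h1 := hsm _ s2
      have h2 := hbig _ hi'
      have h3 := h23.1
      omega
    · have h1 := hsm _ s3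
      have h2 := hbig _ hi
      have h3 := h23.1
      omega
    · have h1 := hbig _ hi
      have h2 := hbig _ hi'
      omega
  | u2 =>
    rcases nb_u2 h12 with rfl | rfl | rfl | ⟨i, rfl, hi⟩ <;>
      rcases nb_u2 h13 with rfl | rfl | rfl | ⟨i', rfl, hi'⟩ <;>
      simp [A2, E, sz] at h23 s2 s3
    · have h1 := hlow _ hi'
      have h3 := h23.1
      rw [h1] at h3
      exact absurd h3 (Nat.succ_ne_zero _)
    · have h1 := hlow _ hi
      have h3 := h23.1
      rw [h1] at h3
      exact absurd h3 (Nat.succ_ne_zero _)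
    · have h1 := hlow _ hi
      have h2 := hlow _ hi'
      omega
  | l1 =>
    have e2 := nb_l1 h12
    have e3 := nb_l1 h13
    subst e2; subst e3
    simp [A2, E] at h23
  | l2 =>
    have e2 := nb_l2 h12
    have e3 := nb_l2 h13
    subst e2; subst e3
    simp [A2, E] at h23

/-- dense edges -/
def Den (w : ℕ) : Kd p → ℕ → Kd p → ℕ → Prop
  | .r i, x, .r j, y => j = i + 1 ∧ x / w < y / w
  | .a i, x, .b j, y => i = j ∧ y ≤ x
  | _, _, _, _ => False

/-- the block -/
def blk (w : ℕ) : Kd p → ℕ → ℕ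
  | .b _, y => y / w
  | _, x => x / w + 1

theorem split_core {k k' : Kd p} {x y : ℕ} (hk : core k) (hk' : core k')
    (h : A2 B w v H k x k' y) :
    (blk w k x = blk w k' y ∧ Hn H (x % w) (y % w)) ∨ Den w k x k' y ∨ Den w k' y k x := by
  cases k <;> cases k' <;> simp only [core] at hk hk' <;>
    simp only [A2, E, blk, Den, or_false, false_or] at h ⊢
  · rcases h with (h | h) | (h | h)
    · exact Or.inr (Or.inl ⟨h.1, h.2.1⟩)
    · exact Or.inl ⟨by rw [h.2.1], h.2.2⟩
    · exact Or.inr (Or.inr ⟨h.1, h.2.1⟩)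
    · exact Or.inl ⟨by rw [h.2.1], Hn_symm h.2.2⟩
  · exact ⟨by rw [h.1], h.2⟩
  · exact h
  · exact ⟨by rw [h.1], Hn_symm h.2⟩
  · rcases h with h | h
    · exact ⟨by rw [h.2.1], h.2.2.2⟩
    · exact ⟨by rw [h.2.1], Hn_symm h.2.2.2⟩
  · rcases h with h | h
    · exact Or.inr h
    · exact Or.inl h.2
  · exact ⟨h.1.symm, Hn_symm h.2⟩
  · rcases h with h | h
    · exact Or.inr ⟨h.1, h.2⟩
    · exact Or.inl ⟨h.2.1.symm, Hn_symm h.2.2⟩
  · rcases h with h | h
    · exact ⟨h.2.1, h.2.2.2⟩
    · exact ⟨h.2.1.symm, Hn_symm h.2.2.2⟩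

theorem dense_tri {k k' k'' : Kd p} {x y z : ℕ} (hk'' : core k'') (hd : Den w k x k' y)
    (h1 : A2 B w v H k x k'' z) (h2 : A2 B w v H k' y k'' z) : False := by
  cases k with
  | r i =>
    cases k' with
    | r j =>
      obtain ⟨rfl, hlt⟩ := hd
      cases k'' with
      | r l =>
        simp only [A2, E] at h1 h2
        have h3 : ∀ i l : Fin 3, (l = i + 1 → i = l + 1 → False) ∧
            (l = i + 1 → l = i + 1 + 1 → False) ∧ (i = l + 1 → i + 1 = l + 1 → False) ∧
            (i ≠ l → i + 1 ≠ l → l = i + 1 + 1 ∧ i = l + 1) := by decide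
        obtain ⟨q1, q2, q3, q4⟩ := h3 i l
        by_cases e1 : l = i + 1
        · subst e1
          have q5 : ∀ i : Fin 3, ¬ (i + 1 = i + 1 + 1) := by decide
          rcases h2 with (h | h) | (h | h)
          · exact q5 i h.1
          · exact h.1 rfl
          · exact q5 i h.1
          · exact h.1 rfl
        · by_cases e2 : i = l
          · subst e2
            have q5 : ∀ i : Fin 3, ¬ (i = i + 1) := by decide
            rcases h1 with (h | h) | (h | h)
            · exact q5 i h.1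
            · exact h.1 rfl
            · exact q5 i h.1
            · exact h.1 rfl
          · obtain ⟨q6, q7⟩ := q4 e2 (fun h => e1 h.symm)
            have q8 : ∀ i : Fin 3, ¬ (i + 1 = i + 1 + 1 + 1) ∧ ¬ (i + 1 + 1 = i + 1) := by decide
            have g1 : z / w ≤ x / w := by
              rcases h1 with (h | h) | (h | h)
              · exact absurd h.1 e1
              · exact h.2.1.ge
              · exact h.2.1.le
              · exact h.2.1.le
            have g2 : y / w ≤ z / w := by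
              rcases h2 with (h | h) | (h | h)
              · exact h.2.1.le
              · exact h.2.1.le
              · exfalso
                have := h.1
                rw [q6] at this
                exact (q8 i).1 this
              · exact h.2.1.ge
            omega
      | a l =>
        simp only [A2, E, or_false] at h1 h2
        omega
      | b l =>
        simp only [A2, E, or_false] at h1 h2
        omega
      | _ => exact hk''
    | _ => exact hd
  | a i =>
    cases k' with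
    | b j =>
      obtain ⟨rfl, hle⟩ := hd
      have hdiv : y / w ≤ x / w := Nat.div_le_div_right hle
      cases k'' with
      | r l =>
        simp only [A2, E, or_false, false_or] at h1 h2
        omega
      | a l =>
        simp only [A2, E, or_false, false_or] at h1 h2
        have g1 : i ≠ l ∧ x / w = z / w := by
          rcases h1 with h | h
          · exact ⟨h.1, h.2.1⟩
          · exact ⟨h.1.symm, h.2.1.symm⟩
        rcases h2 with h | h
        · exact g1.1 h.1.symm
        · omega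
      | b l =>
        simp only [A2, E, or_false, false_or] at h1 h2
        have g1 : i ≠ l ∧ y / w = z / w := by
          rcases h2 with h | h
          · exact ⟨h.1, h.2.1⟩
          · exact ⟨h.1.symm, h.2.1.symm⟩
        rcases h1 with h | h
        · exact g1.1 h.1
        · omega
      | _ => exact hk''
    | _ => exact hd
  | _ => exact hd

theorem core_tri (hH : H.CliqueFree 3) {k1 k2 k3 : Kd p} {x1 x2 x3 : ℕ}
    (c1 : core k1) (c2 : core k2) (c3 : core k3)
    (h12 : A2 B w v H k1 x1 k2 x2) (h13 : A2 B w v H k1 x1 k3 x3)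
    (h23 : A2 B w v H k2 x2 k3 x3) : False := by
  rcases split_core c1 c2 h12 with g12 | g12 | g12
  · rcases split_core c1 c3 h13 with g13 | g13 | g13
    · rcases split_core c2 c3 h23 with g23 | g23 | g23
      · exact Hn_tri hH g12.2 g13.2 g23.2
      · exact dense_tri c1 g23 (A2_symm h12) (A2_symm h13)
      · exact dense_tri c1 g23 (A2_symm h13) (A2_symm h12)
    · exact dense_tri c2 g13 h12 (A2_symm h23)
    · exact dense_tri c2 g13 (A2_symm h23) h12
  · exact dense_tri c3 g12 h13 h23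
  · exact dense_tri c3 g12 h23 h13

theorem ps_lt (x : V p B w v) : ps x < sz B w v (kd x) := by
  rcases x with ⟨i, x⟩ | ⟨i, x⟩ | ⟨i, x⟩ | x | x | x | x | x <;> exact x.2

theorem t_TRI : S_TRI := by
  intro p B w v H hw hH s hs
  obtain ⟨a, b, c, hab, hac, hbc, rfl⟩ := SimpleGraph.is3Clique_iff.1 hs
  have h12 : A2 B w v H (kd a) (ps a) (kd b) (ps b) := hab
  have h13 : A2 B w v H (kd a) (ps a) (kd c) (ps c) := hac
  have h23 : A2 B w v H (kd b) (ps b) (kd c) (ps c) := hbc
  by_cases c1 : core (kd a)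
  · by_cases c2 : core (kd b)
    · by_cases c3 : core (kd c)
      · exact core_tri hH c1 c2 c3 h12 h13 h23
      · exact rest_tri hw c3 (ps_lt a) (ps_lt b) (A2_symm h13) (A2_symm h23) h12
    · exact rest_tri hw c2 (ps_lt a) (ps_lt c) (A2_symm h12) h23 h13
  · exact rest_tri hw c1 (ps_lt b) (ps_lt c) h12 h13 h23

end Run7.h67.RO
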